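import Pool.Agent.W627.LT.Stm

/-!
# Almost all members of an arithmetic progression of polylogarithmic length are good
-/

set_option autoImplicit false

namespace Pool.Agent.W791.LT

open Finset Filter NumberField Pool.Agent.H38R2.CG Pool.Agent.W627.LT
open scoped Classical

lemma two_pow_card_le {m : ℕ} (hm : 0 < m) (S : Finset ℕ) (hS : ∀ p ∈ S, p.Prime ∧ p ∣ m) :
    2 ^ S.card ≤ m := by
  have h1 : S ⊆ m.primeFactors := fun p hp =>
    Nat.mem_primeFactors.mpr ⟨(hS p hp).1, (hS p hp).2, hm.ne'⟩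
  have h2 : 2 ^ S.card ≤ ∏ p ∈ S, p := by
    have := Finset.prod_le_prod' (s := S) (f := fun _ : ℕ => 2) (g := fun p => p)
      (fun p hp => (hS p hp).1.two_le)
    simpa using this
  have h3 : (∏ p ∈ S, p) ≤ ∏ p ∈ m.primeFactors, p :=
    Finset.prod_le_prod_of_subset_of_one_le' h1
      (fun p hp _ => (Nat.prime_of_mem_primeFactors hp).one_lt.le)
  exact h2.trans (h3.trans (Nat.le_of_dvd hm (Nat.prod_primeFactors_dvd m)))

lemma card_le_log {m : ℕ} {X : ℝ} (hm : 0 < m) (hX : (m : ℝ) ≤ X) (S : Finset ℕ)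
    (hS : ∀ p ∈ S, p.Prime ∧ p ∣ m) : (S.card : ℝ) ≤ 3 / 2 * Real.log X := by
  have h1 : (2 : ℝ) ^ S.card ≤ X := by
    have : ((2 ^ S.card : ℕ) : ℝ) ≤ (m : ℝ) := by exact_mod_cast two_pow_card_le hm S hS
    push_cast at this
    linarith
  have h2 : (S.card : ℝ) * Real.log 2 ≤ Real.log X := by
    rw [← Real.log_pow]
    exact Real.log_le_log (by positivity) h1
  have h3 := Real.log_two_gt_d9
  have h4 : (0 : ℝ) ≤ S.card := Nat.cast_nonneg _
  nlinarith

lemma asym {B A1 L : ℝ} (hB : 0 < B) (hA : B + 2 ≤ A1) (h1 : (124 * A1) ^ 2 ≤ L) :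
    16 * L ^ B + 15 * L ≤ (⌊L ^ A1⌋₊ : ℝ) / Real.log ⌊L ^ A1⌋₊ := by
  have hA1 : 2 < A1 := by linarith
  have hL : 1 ≤ L := by nlinarith
  have hL0 : 0 < L := by linarith
  have hL4 : 4 ≤ L := by nlinarith
  have hu : L ^ (2 : ℝ) ≤ L ^ A1 := Real.rpow_le_rpow_of_exponent_le hL hA1.le
  have hu16 : 16 ≤ L ^ A1 := by
    have h2 : L ^ (2 : ℝ) = L * L := by
      rw [show (2 : ℝ) = ((2 : ℕ) : ℝ) by norm_num, Real.rpow_natCast]; ring
    have h16 : 16 ≤ L * L := by nlinarith
    rw [← h2] at h16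
    exact h16.trans hu
  have hfl : L ^ A1 - 1 < ⌊L ^ A1⌋₊ := by
    have := Nat.lt_floor_add_one (L ^ A1)
    linarith
  have hfu : (⌊L ^ A1⌋₊ : ℝ) ≤ L ^ A1 := Nat.floor_le (by positivity)
  have hf : L ^ A1 / 2 ≤ ⌊L ^ A1⌋₊ := by linarith
  have hlogpos : 0 < Real.log ⌊L ^ A1⌋₊ := Real.log_pos (by linarith)
  have hlog : Real.log ⌊L ^ A1⌋₊ ≤ A1 * Real.log L := by
    rw [← Real.log_rpow hL0]
    exact Real.log_le_log (by linarith) hfu
  have hsq : Real.log L ≤ 2 * √L := by
    have h := Real.log_le_sub_one_of_pos (Real.sqrt_pos.mpr hL0)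
    have h' : Real.log (√L) = Real.log L / 2 := Real.log_sqrt hL0.le
    have := Real.sqrt_nonneg L
    linarith
  have hsl : 124 * A1 ≤ √L := Real.le_sqrt_of_sq_le h1
  have hs0 : 0 < √L := Real.sqrt_pos.mpr hL0
  have hss : √L * √L = L := Real.mul_self_sqrt hL0.le
  rw [le_div_iff₀ hlogpos]
  have hb1 : L ^ B ≤ L ^ (B + 1) := Real.rpow_le_rpow_of_exponent_le hL (by linarith)
  have hb2 : L ≤ L ^ (B + 1) := by
    have := Real.rpow_le_rpow_of_exponent_le hL (show (1 : ℝ) ≤ B + 1 by linarith)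
    simpa using this
  have hb3 : L ^ (B + 1) * L ≤ L ^ A1 := by
    have h : L ^ (B + 1) * L = L ^ (B + 2) := by
      rw [show B + 2 = (B + 1) + 1 by ring, Real.rpow_add hL0 (B + 1) 1, Real.rpow_one]
    rw [h]
    exact Real.rpow_le_rpow_of_exponent_le hL hA
  have hE : 0 < L ^ (B + 1) := by positivity
  have h31 : 16 * L ^ B + 15 * L ≤ 31 * L ^ (B + 1) := by linarith
  have hlog2 : Real.log ⌊L ^ A1⌋₊ ≤ 2 * A1 * √L := by
    have : A1 * Real.log L ≤ A1 * (2 * √L) := mul_le_mul_of_nonneg_left hsq (by linarith)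
    linarith
  calc (16 * L ^ B + 15 * L) * Real.log ⌊L ^ A1⌋₊
      ≤ (31 * L ^ (B + 1)) * (2 * A1 * √L) :=
        mul_le_mul h31 hlog2 hlogpos.le (by positivity)
    _ = (1 / 2) * L ^ (B + 1) * ((124 * A1) * √L) := by ring
    _ ≤ (1 / 2) * L ^ (B + 1) * (√L * √L) := by
        apply mul_le_mul_of_nonneg_left _ (by positivity)
        exact mul_le_mul_of_nonneg_right hsl hs0.le
    _ = (L ^ (B + 1) * L) / 2 := by rw [hss]; ring
    _ ≤ L ^ A1 / 2 := by linarith
    _ ≤ ⌊L ^ A1⌋₊ := hf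

lemma jac_le {p d y : ℕ} (hp : p.Prime) (hpP : p ∈ PQ y) :
    jacobiSym (d : ℤ) p ≤ 2 * (if p ∈ SQ y d then (1 : ℤ) else 0) - 1 +
      (if p ∣ d then (1 : ℤ) else 0) := by
  have : NeZero p := ⟨hp.ne_zero⟩
  have hiff : jacobiSym (d : ℤ) p = 0 ↔ p ∣ d := by
    rw [jacobiSym.eq_zero_iff_not_coprime]
    have : (d : ℤ).gcd (p : ℤ) = Nat.gcd d p := by simp [Int.gcd]
    rw [this]
    constructor
    · intro h
      by_contra hnd
      exact h ((hp.coprime_iff_not_dvd.mpr hnd).symm)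
    · intro h h1
      exact (hp.coprime_iff_not_dvd.mp (Nat.Coprime.symm h1)) h
  by_cases hd : p ∣ d
  · have h0 := hiff.mpr hd
    have hns : p ∉ SQ y d := by
      intro h
      exact (Finset.mem_filter.mp h).2.1 hd
    simp [h0, hd, hns]
  · have h0 : jacobiSym (d : ℤ) p ≠ 0 := fun h => hd (hiff.mp h)
    rcases jacobiSym.trichotomy (d : ℤ) p with h | h | h
    · exact absurd h h0
    · have hs : p ∈ SQ y d := Finset.mem_filter.mpr ⟨hpP, hd, h⟩
      simp [h, hd, hs]
    · have hns : p ∉ SQ y d := by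
        intro h'
        have := (Finset.mem_filter.mp h').2.2
        omega
      simp [h, hd, hns]

lemma sum_jac {y d : ℕ} (P : Finset ℕ) (hP : P ⊆ PQ y) :
    ∑ p ∈ P, jacobiSym (d : ℤ) p ≤ 2 * ((SQ y d).card : ℤ) - P.card +
      ((P.filter (fun p => p ∣ d)).card : ℤ) := by
  have h1 : ∑ p ∈ P, jacobiSym (d : ℤ) p ≤ ∑ p ∈ P, (2 * (if p ∈ SQ y d then (1 : ℤ) else 0) - 1 +
      (if p ∣ d then (1 : ℤ) else 0)) := by
    apply Finset.sum_le_sum
    intro p hp
    have hpp := hP hp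
    exact jac_le (Finset.mem_filter.mp hpp).2 hpp
  have h2 : ∑ p ∈ P, (2 * (if p ∈ SQ y d then (1 : ℤ) else 0) - 1 +
      (if p ∣ d then (1 : ℤ) else 0)) = 2 * ((P.filter (fun p => p ∈ SQ y d)).card : ℤ) - P.card +
      ((P.filter (fun p => p ∣ d)).card : ℤ) := by
    rw [Finset.sum_add_distrib, Finset.sum_sub_distrib, ← Finset.mul_sum]
    simp [Finset.filter_mem_eq_inter]
  have h3 : (P.filter (fun p => p ∈ SQ y d)).card ≤ (SQ y d).card :=
    Finset.card_le_card (fun p hp => (Finset.mem_filter.mp hp).2)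
  have h3' : ((P.filter (fun p => p ∈ SQ y d)).card : ℤ) ≤ ((SQ y d).card : ℤ) := by
    exact_mod_cast h3
  linarith

theorem ltw : S_G → S_P → S_E → S_W := by
  intro hG hP hE ε B hε hB
  obtain ⟨A0, hA0, hG1⟩ := hG ε hε
  set A1 : ℝ := max A0 (B + 2) with hA1def
  have hA1 : B + 2 ≤ A1 := le_max_right _ _
  obtain ⟨X1, hX1, hG2⟩ := hG1 A1 (le_max_left _ _)
  obtain ⟨y0, hP1⟩ := hP
  refine ⟨3 * A1 + 1, max X1 (Real.exp (max ((124 * A1) ^ 2) y0)), by linarith, ?_⟩
  intro X hX a q H hq haqX hLH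
  have hXX1 : X1 ≤ X := (le_max_left _ _).trans hX
  have hXpos : 0 < X := by linarith
  have hL : max ((124 * A1) ^ 2) (y0 : ℝ) ≤ Real.log X := by
    rw [Real.le_log_iff_exp_le hXpos]
    exact (le_max_right _ _).trans hX
  set L := Real.log X with hLdef
  have hL1 : (124 * A1) ^ 2 ≤ L := (le_max_left _ _).trans hL
  have hLy : (y0 : ℝ) ≤ L := (le_max_right _ _).trans hL
  have hA1' : 2 < A1 := by linarith
  have hLone : 1 ≤ L := by nlinarith
  have hL0 : 0 < L := by linarith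
  have has := asym hB hA1 hL1
  set y := ⌊L ^ A1⌋₊ with hy
  have hyy0 : y0 ≤ y := by
    apply Nat.le_floor
    calc (y0 : ℝ) ≤ L := hLy
      _ = L ^ (1 : ℝ) := (Real.rpow_one L).symm
      _ ≤ L ^ A1 := Real.rpow_le_rpow_of_exponent_le hLone (by linarith)
  have hPy := hP1 y hyy0
  -- H is positive
  have hHr : (1 : ℝ) ≤ H := by
    refine le_trans ?_ hLH
    exact Real.one_le_rpow hLone (by linarith)
  have hH1 : 1 ≤ H := by exact_mod_cast hHr
  -- q ≤ X
  have hqX : (q : ℝ) ≤ X := by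
    refine le_trans ?_ haqX
    have : q ≤ a + q * H := by nlinarith
    exact_mod_cast this
  set P : Finset ℕ := (PQ y).filter (fun p => ¬ p ∣ q) with hPdef
  have hPsub : P ⊆ PQ y := Finset.filter_subset _ _
  have hcardP : ((PQ y).card : ℝ) - 3 / 2 * L ≤ P.card := by
    have h1 : (P.card + ((PQ y).filter (fun p => p ∣ q)).card : ℕ) = (PQ y).card := by
      have := Finset.card_filter_add_card_filter_not (s := PQ y) (fun p => p ∣ q)
      rw [hPdef]; omega
    have h2 : (((PQ y).filter (fun p => p ∣ q)).card : ℝ) ≤ 3 / 2 * L := by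
      apply card_le_log hq hqX
      intro p hp
      have := Finset.mem_filter.mp hp
      exact ⟨(Finset.mem_filter.mp this.1).2, this.2⟩
    have h3 : (P.card : ℝ) + (((PQ y).filter (fun p => p ∣ q)).card : ℝ) = (PQ y).card := by
      exact_mod_cast h1
    linarith
  have hyl : (y : ℝ) / (2 * Real.log y) = ((y : ℝ) / Real.log y) / 2 := by
    rw [div_div, mul_comm]
  have hP8 : 8 * L ^ B ≤ P.card := by
    rw [hyl] at hPy
    linarith
  have hPQy : (PQ y).card ≤ y := by
    unfold PQ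
    refine (Finset.card_filter_le _ _).trans ?_
    simp
  have hPcy : P.card ≤ y := (Finset.card_le_card hPsub).trans hPQy
  have hyL : (y : ℝ) ≤ L ^ A1 := Nat.floor_le (by positivity)
  have hPH : P.card * y ^ 2 ≤ H := by
    have h1 : ((P.card * y ^ 2 : ℕ) : ℝ) ≤ H := by
      refine le_trans ?_ hLH
      have h2 : ((P.card * y ^ 2 : ℕ) : ℝ) ≤ (L ^ A1) ^ 3 := by
        push_cast
        have h3 : (P.card : ℝ) ≤ L ^ A1 := le_trans (by exact_mod_cast hPcy) hyL
        calc (P.card : ℝ) * (y : ℝ) ^ 2 ≤ L ^ A1 * (L ^ A1) ^ 2 := by gcongr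
          _ = (L ^ A1) ^ 3 := by ring
      refine h2.trans ?_
      rw [← Real.rpow_natCast, ← Real.rpow_mul hL0.le]
      apply Real.rpow_le_rpow_of_exponent_le hLone
      push_cast
      linarith
    exact_mod_cast h1
  have hEE := hE a q H y P (by
    intro p hp
    have h1 := Finset.mem_filter.mp hp
    have h2 := Finset.mem_filter.mp h1.1
    have h3 := Finset.mem_Icc.mp h2.1
    exact ⟨h2.2, by omega, h3.2, h1.2⟩) hPH
  -- the exceptional set is contained in the exceptional set of S_E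
  have hsub : (range H).filter (fun j => ¬ IsSquare (a + q * j) ∧ ¬ Good ε X (a + q * j)) ⊆
      (range H).filter (fun j => 2 * ∑ p ∈ P, jacobiSym ((a + q * j : ℕ) : ℤ) p ≤
        -(P.card : ℤ)) := by
    intro j hj
    obtain ⟨hjH, hns, hng⟩ := Finset.mem_filter.mp hj
    refine Finset.mem_filter.mpr ⟨hjH, ?_⟩
    by_contra hcon
    rw [not_le] at hcon
    apply hng
    have hd0 : 0 < a + q * j := by
      rcases Nat.eq_zero_or_pos (a + q * j) with h | h
      · exact absurd (by rw [h]; exact ⟨0, rfl⟩) hns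
      · exact h
    have hdX : ((a + q * j : ℕ) : ℝ) ≤ X := by
      refine le_trans ?_ haqX
      have : a + q * j ≤ a + q * H := by
        have := Finset.mem_range.mp hjH
        have := Nat.mul_le_mul_left q this.le
        omega
      exact_mod_cast this
    have hX1' : 1 ≤ X := by linarith
    apply hG2 X hXX1 (a + q * j) hd0 hns (by nlinarith)
    have hsj := sum_jac (y := y) (d := a + q * j) P hPsub
    have hdiv : ((P.filter (fun p => p ∣ a + q * j)).card : ℝ) ≤ 3 / 2 * L := by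
      apply card_le_log hd0 hdX
      intro p hp
      have h1 := Finset.mem_filter.mp hp
      exact ⟨(Finset.mem_filter.mp (hPsub h1.1)).2, h1.2⟩
    have hint : (P.card : ℤ) - 2 * ((P.filter (fun p => p ∣ a + q * j)).card : ℤ) <
        4 * ((SQ y (a + q * j)).card : ℤ) := by linarith
    have hreal : (P.card : ℝ) - 2 * ((P.filter (fun p => p ∣ a + q * j)).card : ℝ) <
        4 * ((SQ y (a + q * j)).card : ℝ) := by exact_mod_cast hint
    have hyl20 : (y : ℝ) / (20 * Real.log y) = ((y : ℝ) / Real.log y) / 20 := by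
      rw [div_div, mul_comm]
    rw [hyl20]
    rw [hyl] at hPy
    have hLB : 0 < L ^ B := by positivity
    linarith
  have hcard := Finset.card_le_card hsub
  have hfin : (((range H).filter (fun j => ¬ IsSquare (a + q * j) ∧
      ¬ Good ε X (a + q * j))).card : ℝ) * P.card ≤ 8 * H := by
    have : ((range H).filter (fun j => ¬ IsSquare (a + q * j) ∧
      ¬ Good ε X (a + q * j))).card * P.card ≤ 8 * H := (Nat.mul_le_mul_right _ hcard).trans hEE
    exact_mod_cast this
  have hLB : 0 < L ^ B := by positivity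
  rw [le_div_iff₀ hLB]
  have hnn : (0 : ℝ) ≤ (((range H).filter (fun j => ¬ IsSquare (a + q * j) ∧
      ¬ Good ε X (a + q * j))).card : ℝ) := Nat.cast_nonneg _
  nlinarith

end Pool.Agent.W791.LT
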